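import Mathlib

/-!
# LM: the definitions of the statement
-/

open Polynomial

namespace Pool.Agent.Helper84.LM

/-- `X` is an infinitesimal similitude of the bilinear form `ψ`. -/
def InfSim {V : Type} [AddCommGroup V] [Module ℂ V] (ψ : LinearMap.BilinForm ℂ V)
    (X : Module.End ℂ V) : Prop :=
  ∃ c : ℂ, ∀ x y, ψ (X x) y + ψ x (X y) = c * ψ x y

/-- The polynomial functions on `End V`: the algebra generated by the linear functionals. -/
def polyFun (V : Type) [AddCommGroup V] [Module ℂ V] : Subalgebra ℂ (Module.End ℂ V → ℂ) :=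
  Algebra.adjoin ℂ (Set.range fun (l : Module.Dual ℂ (Module.End ℂ V)) (g : Module.End ℂ V) => l g)

/-- `X` lies in the Lie algebra (the tangent space at the identity) of the Zariski closure of the
group `G` of automorphisms of `V`: every polynomial function `f` on `End V` which vanishes on `G`
has derivative zero at the identity in the direction `X`. -/
def InLie {V : Type} [AddCommGroup V] [Module ℂ V] (G : Subgroup (Module.End ℂ V)ˣ)
    (X : Module.End ℂ V) : Prop :=
  ∀ f ∈ polyFun V, (∀ g ∈ G, f (g : Module.End ℂ V) = 0) →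
    deriv (fun t : ℂ => f (1 + t • X)) 0 = 0

/-- For every symplectic space `(V, ψ)` over `ℂ` and every group `G` of similitudes of `ψ` which
contains a power `γ ^ N`, `N ≥ 1`, of a similitude `γ` with multiplier `q` and characteristic
polynomial `P`: if `V` is semisimple over the Lie algebra `L = {X | InLie G X}` of the Zariski
closure of `G`, then `L` is the full centralizer of `End_L(V)` in the Lie algebra of all
infinitesimal similitudes of `ψ`. -/
def LefschetzGroup (q : ℕ) (P : ℂ[X]) : Prop :=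
  ∀ (V : Type) [AddCommGroup V] [Module ℂ V] [FiniteDimensional ℂ V]
    (ψ : LinearMap.BilinForm ℂ V), ψ.Nondegenerate → (∀ x, ψ x x = 0) →
    ∀ γ : (Module.End ℂ V)ˣ,
      (∀ x y, ψ ((γ : Module.End ℂ V) x) ((γ : Module.End ℂ V) y) = q * ψ x y) →
      LinearMap.charpoly (γ : Module.End ℂ V) = P →
    ∀ G : Subgroup (Module.End ℂ V)ˣ,
      (∀ g ∈ G, ∃ c : ℂ, ∀ x y, ψ ((g : Module.End ℂ V) x) ((g : Module.End ℂ V) y) = c * ψ x y) →
      (∃ N : ℕ, N ≠ 0 ∧ γ ^ N ∈ G) →
      (∀ U : Submodule ℂ V, (∀ X, InLie G X → ∀ u ∈ U, X u ∈ U) →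
        ∃ U' : Submodule ℂ V, (∀ X, InLie G X → ∀ u ∈ U', X u ∈ U') ∧ IsCompl U U') →
      ∀ X : Module.End ℂ V, InLie G X ↔
        InfSim ψ X ∧ ∀ Y : Module.End ℂ V, (∀ Z, InLie G Z → Y * Z = Z * Y) → X * Y = Y * X

end Pool.Agent.Helper84.LM
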