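import Mathlib

/-!
# LM-1: Lie algebras of similitudes containing a Cartan subalgebra (matrix form)

`ι` is the index set of a basis `v_i` with an involution `σ` without fixed points, `p i` stands for
`ψ(v_i, v_(σ i))`, all the other `ψ(v_i, v_j)` vanish.
-/

open Matrix

namespace Pool.Agent.Helper84.LM

variable {ι : Type*} [Fintype ι] [DecidableEq ι]

/-- The test vectors. -/
private def uu (σ : ι → ι) (r i : ι) : ℂ := (if i = r then 1 else 0) - (if i = σ r then 1 else 0)

omit [Fintype ι] in
private theorem uu_sim {σ : ι → ι} (hσ : ∀ i, σ (σ i) = i) (r i : ι) :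
    uu σ r i + uu σ r (σ i) = 0 := by
  unfold uu
  have h1 : (σ i = r) ↔ (i = σ r) := by
    constructor
    · rintro rfl
      exact (hσ i).symm
    · rintro rfl
      exact hσ r
  have h2 : (σ i = σ r) ↔ (i = r) := by
    constructor
    · intro h
      rw [← hσ i, h, hσ]
    · rintro rfl
      rfl
  simp only [h1, h2]
  ring

/-- A pair which is not in the weight class of `(i, j)` is separated by an admissible diagonal. -/
private theorem sep {σ : ι → ι} (hσ : ∀ i, σ (σ i) = i) (hσ' : ∀ i, σ i ≠ i) {i j k l : ι}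
    (hij : i ≠ j) (h1 : ¬ (k = i ∧ l = j)) (h2 : ¬ (k = σ j ∧ l = σ i)) :
    ∃ a : ι → ℂ, (∀ i, a i + a (σ i) = 0) ∧ a i - a j ≠ a k - a l := by
  by_contra hcon
  push Not at hcon
  have hF : ∀ r, uu σ r i - uu σ r j = uu σ r k - uu σ r l := fun r => hcon _ (uu_sim hσ r)
  have hi := hF i
  have hj := hF j
  have hii : uu σ i i = 1 := by
    unfold uu
    rw [if_pos rfl, if_neg (fun h => hσ' i h.symm)]
    ring
  have hjj : uu σ j j = 1 := by
    unfold uu
    rw [if_pos rfl, if_neg (fun h => hσ' j h.symm)]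
    ring
  by_cases hjs : j = σ i
  · -- the long root
    have hij' : uu σ i j = -1 := by
      unfold uu
      rw [if_neg hij.symm, if_pos hjs]
      ring
    rw [hii, hij'] at hi
    by_cases hk : k = i
    · by_cases hl : l = j
      · exact h1 ⟨hk, hl⟩
      · have e1 : uu σ i l = if l = i then 1 else 0 := by
          unfold uu
          rw [if_neg (fun h => hl (h.trans hjs.symm)) (c := l = σ i)]
          ring
        rw [hk, hii, e1] at hi
        split_ifs at hi <;> norm_num at hi
    · have e1 : uu σ i k = - (if k = σ i then 1 else 0) := by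
        unfold uu
        rw [if_neg hk]
        ring
      have e2 : uu σ i l = (if l = i then 1 else 0) - (if l = σ i then 1 else 0) := rfl
      rw [e1, e2] at hi
      split_ifs at hi <;> norm_num at hi
  · have hij' : uu σ i j = 0 := by
      unfold uu
      rw [if_neg hij.symm, if_neg hjs]
      ring
    rw [hii, hij'] at hi
    have hsji : σ j ≠ i := fun h => hjs (by rw [← h, hσ])
    have hji' : uu σ j i = 0 := by
      unfold uu
      rw [if_neg hij, if_neg (fun h => hsji h.symm)]
      ring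
    rw [hjj, hji'] at hj
    by_cases hk : k = i
    · have hl : l = j := by
        rw [hk, hji'] at hj
        by_contra hl
        have e1 : uu σ j l = - (if l = σ j then 1 else 0) := by
          unfold uu
          rw [if_neg hl]
          ring
        rw [e1] at hj
        split_ifs at hj <;> norm_num at hj
      exact h1 ⟨hk, hl⟩
    · have e1 : uu σ i k = - (if k = σ i then 1 else 0) := by
        unfold uu
        rw [if_neg hk]
        ring
      have hl : l = σ i := by
        by_contra hl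
        have e2 : uu σ i l = (if l = i then 1 else 0) := by
          unfold uu
          rw [if_neg hl]
          ring
        rw [e1, e2] at hi
        split_ifs at hi <;> norm_num at hi
      have e3 : uu σ j l = 0 := by
        have := uu_sim hσ j i
        rw [hji', zero_add] at this
        rw [hl, this]
      rw [e3] at hj
      have hk2 : k = σ j := by
        by_contra hk2
        have e4 : uu σ j k = (if k = j then 1 else 0) := by
          unfold uu
          rw [if_neg hk2]
          ring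
        rw [e4] at hj
        split_ifs at hj <;> norm_num at hj
      exact h2 ⟨hk2, hl⟩

/-- Commutator with a diagonal matrix. -/
private theorem comm_diag (a : ι → ℂ) (X : Matrix ι ι ℂ) (i j : ι) :
    (diagonal a * X - X * diagonal a) i j = (a i - a j) * X i j := by
  rw [Matrix.sub_apply, diagonal_mul, mul_diagonal]
  ring

variable (σ : ι → ι) (p : ι → ℂ) (g : Submodule ℂ (Matrix ι ι ℂ))

/-- The elements of `g` can be cut down to any weight class. -/
private theorem cut (hσ : ∀ i, σ (σ i) = i) (hσ' : ∀ i, σ i ≠ i)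
    (hbr : ∀ X ∈ g, ∀ Y ∈ g, X * Y - Y * X ∈ g)
    (hdiag : ∀ a : ι → ℂ, (∃ c, ∀ i, a i + a (σ i) = c) → diagonal a ∈ g) {i j : ι} (hij : i ≠ j)
    {X : Matrix ι ι ℂ} (hX : X ∈ g) (s : Finset (ι × ι)) :
    ∃ E ∈ g, (∀ k l, (k, l) ∈ s → ¬ (k = i ∧ l = j) → ¬ (k = σ j ∧ l = σ i) → E k l = 0) ∧
      ∃ c : ℂ, c ≠ 0 ∧ E i j = c * X i j ∧ (∀ k l, X k l = 0 → E k l = 0) := by
  induction s using Finset.induction_on with
  | empty => exact ⟨X, hX, by simp, 1, one_ne_zero, by simp, fun k l h => h⟩
  | insert kl s _ ih =>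
    obtain ⟨E, hE, hE0, c, hc, hEij, hE1⟩ := ih
    obtain ⟨k, l⟩ := kl
    by_cases h1 : k = i ∧ l = j
    · refine ⟨E, hE, fun k' l' hm h3 h4 => ?_, c, hc, hEij, hE1⟩
      rcases Finset.mem_insert.1 hm with h5 | h5
      · rw [Prod.mk.injEq] at h5
        exact absurd ⟨h5.1.trans h1.1, h5.2.trans h1.2⟩ h3
      · exact hE0 k' l' h5 h3 h4
    by_cases h2 : k = σ j ∧ l = σ i
    · refine ⟨E, hE, fun k' l' hm h3 h4 => ?_, c, hc, hEij, hE1⟩
      rcases Finset.mem_insert.1 hm with h5 | h5
      · rw [Prod.mk.injEq] at h5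
        exact absurd ⟨h5.1.trans h2.1, h5.2.trans h2.2⟩ h4
      · exact hE0 k' l' h5 h3 h4
    obtain ⟨a, ha, hne⟩ := sep hσ hσ' hij h1 h2
    refine ⟨(diagonal a * E - E * diagonal a) - (a k - a l) • E,
      g.sub_mem (hbr _ (hdiag a ⟨0, ha⟩) _ hE) (g.smul_mem _ hE), ?_,
      c * ((a i - a j) - (a k - a l)), mul_ne_zero hc (sub_ne_zero.2 hne), ?_, ?_⟩
    · intro k' l' hm h3 h4
      rw [Matrix.sub_apply, comm_diag, Matrix.smul_apply, smul_eq_mul]
      rcases Finset.mem_insert.1 hm with h5 | h5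
      · rw [Prod.mk.injEq] at h5
        rw [h5.1, h5.2]
        ring
      · rw [hE0 k' l' h5 h3 h4]
        ring
    · rw [Matrix.sub_apply, comm_diag, Matrix.smul_apply, smul_eq_mul, hEij]
      ring
    · intro k' l' h3
      rw [Matrix.sub_apply, comm_diag, Matrix.smul_apply, smul_eq_mul, hE1 k' l' h3]
      ring

/-- The root vectors. -/
private theorem root (hσ : ∀ i, σ (σ i) = i) (hσ' : ∀ i, σ i ≠ i)
    (hbr : ∀ X ∈ g, ∀ Y ∈ g, X * Y - Y * X ∈ g)
    (hdiag : ∀ a : ι → ℂ, (∃ c, ∀ i, a i + a (σ i) = c) → diagonal a ∈ g) {i j : ι} (hij : i ≠ j)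
    {X : Matrix ι ι ℂ} (hX : X ∈ g) (hXij : X i j ≠ 0) :
    ∃ E ∈ g, E i j = 1 ∧ ∀ k l, ¬ (k = i ∧ l = j) → ¬ (k = σ j ∧ l = σ i) → E k l = 0 := by
  obtain ⟨E, hE, hE0, c, hc, hEij, -⟩ := cut σ g hσ hσ' hbr hdiag hij hX Finset.univ
  have hne : E i j ≠ 0 := by
    rw [hEij]
    exact mul_ne_zero hc hXij
  refine ⟨(E i j)⁻¹ • E, g.smul_mem _ hE, ?_, fun k l h1 h2 => ?_⟩
  · rw [Matrix.smul_apply, smul_eq_mul, inv_mul_cancel₀ hne]
  · rw [Matrix.smul_apply, hE0 k l (Finset.mem_univ _) h1 h2, smul_zero]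

/-- The relation. -/
private def Rel (i j : ι) : Prop := i = j ∨ ∃ X ∈ g, X i j ≠ 0

private theorem rel_trans (hσ : ∀ i, σ (σ i) = i) (hσ' : ∀ i, σ i ≠ i)
    (hp : ∀ i, p i ≠ 0) (hp' : ∀ i, p (σ i) = - p i)
    (hbr : ∀ X ∈ g, ∀ Y ∈ g, X * Y - Y * X ∈ g)
    (hsim : ∀ X ∈ g, ∀ i j, i ≠ j → X i j * p i + X (σ j) (σ i) * p j = 0)
    (hdiag : ∀ a : ι → ℂ, (∃ c, ∀ i, a i + a (σ i) = c) → diagonal a ∈ g) {i j k : ι}
    (h1 : Rel g i j) (h2 : Rel g j k) : Rel g i k := by
  rcases h1 with rfl | ⟨X, hX, hXij⟩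
  · exact h2
  rcases h2 with rfl | ⟨Y, hY, hYjk⟩
  · exact Or.inr ⟨X, hX, hXij⟩
  by_cases hij : i = j
  · subst hij
    exact Or.inr ⟨Y, hY, hYjk⟩
  by_cases hjk : j = k
  · subst hjk
    exact Or.inr ⟨X, hX, hXij⟩
  by_cases hik : i = k
  · exact Or.inl hik
  right
  obtain ⟨E, hE, hE1, hE0⟩ := root σ g hσ hσ' hbr hdiag hij hX hXij
  obtain ⟨F, hF, hF1, hF0⟩ := root σ g hσ hσ' hbr hdiag hjk hY hYjk
  refine ⟨E * F - F * E, hbr _ hE _ hF, ?_⟩
  have e1 : (E * F) i k = 1 := by
    rw [Matrix.mul_apply, Finset.sum_eq_single j]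
    · rw [hE1, hF1, one_mul]
    · intro l _ hl
      rw [hE0 i l (fun h => hl h.2) (fun h => ?_), zero_mul]
      apply hl
      rw [h.2, h.1, hσ]
    · intro h
      exact absurd (Finset.mem_univ j) h
  by_cases hs : i = σ k
  · -- the sum is a long root
    have hk : k = σ i := by rw [hs, hσ]
    have e2 : (F * E) i k = F (σ k) (σ j) * E (σ j) (σ i) := by
      rw [Matrix.mul_apply, Finset.sum_eq_single (σ j)]
      · rw [← hs, ← hk]
      · intro l _ hl
        rw [hF0 i l (fun h => hij h.1) (fun h => hl h.2), zero_mul]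
      · intro h
        exact absurd (Finset.mem_univ _) h
    have e3 := hsim E hE i j hij
    have e4 := hsim F hF j k hjk
    rw [hE1, one_mul] at e3
    rw [hF1, one_mul] at e4
    have hpk : p k = - p i := by rw [hk, hp']
    rw [hpk] at e4
    have hpi := hp i
    have hpj := hp j
    have e5 : E (σ j) (σ i) = - p i / p j := by
      field_simp
      linear_combination e3
    have e6 : F (σ k) (σ j) = p j / p i := by
      field_simp
      linear_combination -e4
    rw [Matrix.sub_apply, e1, e2, e5, e6]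
    have : p j / p i * (-p i / p j) = -1 := by
      field_simp
    rw [this]
    norm_num
  · have e2 : (F * E) i k = 0 := by
      rw [Matrix.mul_apply]
      apply Finset.sum_eq_zero
      intro l _
      rw [hF0 i l (fun h => hij h.1) (fun h => hs h.1), zero_mul]
    rw [Matrix.sub_apply, e1, e2]
    norm_num

/-- The coordinates can be separated by admissible diagonals. -/
private theorem sep1 (hσ : ∀ i, σ (σ i) = i) (hσ' : ∀ i, σ i ≠ i) {i k : ι} (hik : k ≠ i) :
    ∃ a : ι → ℂ, (∀ i, a i + a (σ i) = 0) ∧ a i ≠ a k := by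
  refine ⟨uu σ i, uu_sim hσ i, ?_⟩
  have hii : uu σ i i = 1 := by
    unfold uu
    rw [if_pos rfl, if_neg (fun h => hσ' i h.symm)]
    ring
  have e1 : uu σ i k = - (if k = σ i then 1 else 0) := by
    unfold uu
    rw [if_neg hik]
    ring
  rw [hii, e1]
  split_ifs <;> norm_num

/-- Stable subspaces contain the coordinates of their elements. -/
private theorem coord (hσ : ∀ i, σ (σ i) = i) (hσ' : ∀ i, σ i ≠ i)
    (hdiag : ∀ a : ι → ℂ, (∃ c, ∀ i, a i + a (σ i) = c) → diagonal a ∈ g)
    (U : Submodule ℂ (ι → ℂ)) (hU : ∀ X ∈ g, ∀ u ∈ U, X *ᵥ u ∈ U) {u : ι → ℂ} (hu : u ∈ U)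
    (i : ι) : Pi.single i (u i) ∈ U := by
  have key : ∀ s : Finset ι, ∃ w ∈ U, (∀ k ∈ s, k ≠ i → w k = 0) ∧ ∃ c : ℂ, c ≠ 0 ∧
      w i = c * u i := by
    intro s
    induction s using Finset.induction_on with
    | empty => exact ⟨u, hu, by simp, 1, one_ne_zero, by simp⟩
    | insert k s _ ih =>
      obtain ⟨w, hw, hw0, c, hc, hwi⟩ := ih
      by_cases hk : k = i
      · refine ⟨w, hw, fun k' hk' hne => ?_, c, hc, hwi⟩
        rcases Finset.mem_insert.1 hk' with h | h
        · exact absurd (h.trans hk) hne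
        · exact hw0 k' h hne
      · obtain ⟨a, ha, hne⟩ := sep1 σ hσ hσ' hk
        refine ⟨diagonal a *ᵥ w - a k • w, U.sub_mem (hU _ (hdiag a ⟨0, ha⟩) _ hw)
          (U.smul_mem _ hw), ?_, c * (a i - a k), mul_ne_zero hc (sub_ne_zero.2 hne), ?_⟩
        · intro k' hk' hne'
          rw [Pi.sub_apply, mulVec_diagonal, Pi.smul_apply, smul_eq_mul]
          rcases Finset.mem_insert.1 hk' with h | h
          · rw [h]
            ring
          · rw [hw0 k' h hne']
            ring
        · rw [Pi.sub_apply, mulVec_diagonal, Pi.smul_apply, smul_eq_mul, hwi]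
          ring
  obtain ⟨w, hw, hw0, c, hc, hwi⟩ := key Finset.univ
  have : Pi.single i (u i) = c⁻¹ • w := by
    funext k
    by_cases hk : k = i
    · subst hk
      rw [Pi.single_eq_same, Pi.smul_apply, smul_eq_mul, hwi, inv_mul_cancel_left₀ hc]
    · rw [Pi.single_eq_of_ne hk, Pi.smul_apply, hw0 k (Finset.mem_univ _) hk, smul_zero]
  rw [this]
  exact U.smul_mem _ hw

private theorem rel_symm (hσ : ∀ i, σ (σ i) = i) (hσ' : ∀ i, σ i ≠ i)
    (hp : ∀ i, p i ≠ 0) (hp' : ∀ i, p (σ i) = - p i)
    (hbr : ∀ X ∈ g, ∀ Y ∈ g, X * Y - Y * X ∈ g)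
    (hsim : ∀ X ∈ g, ∀ i j, i ≠ j → X i j * p i + X (σ j) (σ i) * p j = 0)
    (hdiag : ∀ a : ι → ℂ, (∃ c, ∀ i, a i + a (σ i) = c) → diagonal a ∈ g)
    (hss : ∀ U : Submodule ℂ (ι → ℂ), (∀ X ∈ g, ∀ u ∈ U, X *ᵥ u ∈ U) →
      ∃ U' : Submodule ℂ (ι → ℂ), (∀ X ∈ g, ∀ u ∈ U', X *ᵥ u ∈ U') ∧ IsCompl U U')
    {i j : ι} (h : Rel g i j) : Rel g j i := by
  by_contra hji
  -- the subspace generated by `v_i`
  let U : Submodule ℂ (ι → ℂ) :=
    { carrier := {u | ∀ k, ¬ Rel g k i → u k = 0}
      add_mem' := fun {u v} hu hv k hk => by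
        rw [Pi.add_apply, hu k hk, hv k hk, add_zero]
      zero_mem' := fun k _ => rfl
      smul_mem' := fun c u hu k hk => by
        rw [Pi.smul_apply, hu k hk, smul_zero] }
  have hU : ∀ X ∈ g, ∀ u ∈ U, X *ᵥ u ∈ U := by
    intro X hX u hu k hk
    rw [Matrix.mulVec, dotProduct]
    apply Finset.sum_eq_zero
    intro l _
    by_cases hl : Rel g l i
    · have : X k l = 0 := by
        by_contra h1
        exact hk (rel_trans σ p g hσ hσ' hp hp' hbr hsim hdiag (Or.inr ⟨X, hX, h1⟩) hl)
      rw [this, zero_mul]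
    · rw [hu l hl, mul_zero]
  obtain ⟨U', hU', hc⟩ := hss U hU
  -- `v_j` lies in the complement
  have hj : (Pi.single j 1 : ι → ℂ) ∈ U' := by
    have h1 : (Pi.single j 1 : ι → ℂ) ∈ U ⊔ U' := by
      rw [hc.sup_eq_top]
      trivial
    obtain ⟨w, hw, w', hw', hww⟩ := Submodule.mem_sup.1 h1
    have h2 : w' j = 1 := by
      have h3 := congrFun hww j
      rw [Pi.add_apply, hw j hji, zero_add, Pi.single_eq_same] at h3
      exact h3
    have h4 := coord σ g hσ hσ' hdiag U' hU' hw' j
    rwa [h2] at h4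
  rcases h with rfl | ⟨X, hX, hXij⟩
  · exact hji (Or.inl rfl)
  have h5 := hU' X hX _ hj
  have h6 : (X *ᵥ (Pi.single j 1 : ι → ℂ)) i = X i j := by
    rw [Matrix.mulVec_single_one]
    rfl
  have h7 := coord σ g hσ hσ' hdiag U' hU' h5 i
  rw [h6] at h7
  have h8 : (Pi.single i (X i j) : ι → ℂ) ∈ U := by
    intro k hk
    have : k ≠ i := by
      rintro rfl
      exact hk (Or.inl rfl)
    exact Pi.single_eq_of_ne this _
  have h9 := Submodule.disjoint_def.1 hc.disjoint _ h8 h7
  have h10 := congrFun h9 i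
  rw [Pi.single_eq_same, Pi.zero_apply] at h10
  exact hXij h10

/-- A semisimple Lie algebra of similitudes which contains a Cartan subalgebra is its double
centralizer. -/
theorem core (hσ : ∀ i, σ (σ i) = i) (hσ' : ∀ i, σ i ≠ i)
    (hp : ∀ i, p i ≠ 0) (hp' : ∀ i, p (σ i) = - p i)
    (hbr : ∀ X ∈ g, ∀ Y ∈ g, X * Y - Y * X ∈ g)
    (hsim : ∀ X ∈ g, ∀ i j, i ≠ j → X i j * p i + X (σ j) (σ i) * p j = 0)
    (hdiag : ∀ a : ι → ℂ, (∃ c, ∀ i, a i + a (σ i) = c) → diagonal a ∈ g)
    (hss : ∀ U : Submodule ℂ (ι → ℂ), (∀ X ∈ g, ∀ u ∈ U, X *ᵥ u ∈ U) →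
      ∃ U' : Submodule ℂ (ι → ℂ), (∀ X ∈ g, ∀ u ∈ U', X *ᵥ u ∈ U') ∧ IsCompl U U')
    (X : Matrix ι ι ℂ) (hX : ∀ i j, i ≠ j → X i j * p i + X (σ j) (σ i) * p j = 0)
    (hXd : ∃ c, ∀ i, X i i + X (σ i) (σ i) = c)
    (hXc : ∀ Y : Matrix ι ι ℂ, (∀ Z ∈ g, Y * Z = Z * Y) → X * Y = Y * X) : X ∈ g := by
  classical
  have hsymm : ∀ i j, Rel g i j → Rel g j i := fun i j h =>
    rel_symm σ p g hσ hσ' hp hp' hbr hsim hdiag hss h
  have htrans : ∀ i j k, Rel g i j → Rel g j k → Rel g i k := fun i j k h1 h2 =>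
    rel_trans σ p g hσ hσ' hp hp' hbr hsim hdiag h1 h2
  -- the entries outside of the blocks vanish
  have hblock : ∀ i j, ¬ Rel g i j → X i j = 0 := by
    intro i j hij
    let d : ι → ℂ := fun k => if Rel g k j then 1 else 0
    have h1 : ∀ Z ∈ g, diagonal d * Z = Z * diagonal d := by
      intro Z hZ
      ext k l
      rw [diagonal_mul, mul_diagonal]
      by_cases hkl : Rel g k l
      · have : (Rel g k j) ↔ (Rel g l j) :=
          ⟨fun h => htrans _ _ _ (hsymm _ _ hkl) h, fun h => htrans _ _ _ hkl h⟩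
        simp only [d, this]
        ring
      · have : Z k l = 0 := by
          by_contra h
          exact hkl (Or.inr ⟨Z, hZ, h⟩)
        rw [this, mul_zero, zero_mul]
    have h2 := hXc _ h1
    have h3 := congrFun (congrFun h2 i) j
    rw [mul_diagonal, diagonal_mul] at h3
    have hdj : d j = 1 := if_pos (Or.inl rfl : Rel g j j)
    have hdi : d i = 0 := if_neg hij
    rw [hdj, hdi, mul_one, zero_mul] at h3
    exact h3
  -- decomposition
  let T : ι → ι → Matrix ι ι ℂ := fun i j =>
    Matrix.single i j (X i j) + Matrix.single (σ j) (σ i) (X (σ j) (σ i))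
  have hT : ∀ i j, i ≠ j → T i j ∈ g := by
    intro i j hij
    by_cases h0 : X i j = 0
    · have h1 := hX i j hij
      rw [h0, zero_mul, zero_add] at h1
      have h2 : X (σ j) (σ i) = 0 := (mul_eq_zero.1 h1).resolve_right (hp j)
      simp only [T, h0, h2, Matrix.single_zero, add_zero]
      exact g.zero_mem
    · have hR : Rel g i j := by
        by_contra h
        exact h0 (hblock i j h)
      rcases hR with h | ⟨Z, hZ, hZij⟩
      · exact absurd h hij
      obtain ⟨E, hE, hE1, hE0⟩ := root σ g hσ hσ' hbr hdiag hij hZ hZij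
      by_cases hs : i = σ j
      · have hj : σ i = j := by rw [hs, hσ]
        have : T i j = (2 * X i j) • E := by
          ext k l
          simp only [T, Matrix.add_apply, Matrix.smul_apply, smul_eq_mul, ← hs, hj]
          by_cases hkl : k = i ∧ l = j
          · rw [hkl.1, hkl.2, hE1, Matrix.single_apply_same]
            ring
          · rw [hE0 k l hkl (by rw [← hs, hj]; exact hkl),
              Matrix.single_apply_of_ne _ _ _ _ _ (fun h => hkl ⟨h.1.symm, h.2.symm⟩)]
            ring
        rw [this]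
        exact g.smul_mem _ hE
      · have e1 := hsim E hE i j hij
        have e2 := hX i j hij
        rw [hE1, one_mul] at e1
        have e3 : X (σ j) (σ i) = X i j * E (σ j) (σ i) := by
          have hpj := hp j
          have : (X (σ j) (σ i) - X i j * E (σ j) (σ i)) * p j = 0 := by
            linear_combination e2 - X i j * e1
          exact sub_eq_zero.1 ((mul_eq_zero.1 this).resolve_right hpj)
        have : T i j = (X i j) • E := by
          ext k l
          simp only [T, Matrix.add_apply, Matrix.smul_apply, smul_eq_mul]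
          by_cases hkl : k = i ∧ l = j
          · rw [hkl.1, hkl.2, hE1, Matrix.single_apply_same,
              Matrix.single_apply_of_ne _ _ _ _ _ (fun h => hs h.1.symm)]
            ring
          · by_cases hkl2 : k = σ j ∧ l = σ i
            · rw [hkl2.1, hkl2.2, Matrix.single_apply_same,
                Matrix.single_apply_of_ne _ _ _ _ _ (fun h => hs h.1), e3]
              ring
            · rw [hE0 k l hkl hkl2,
                Matrix.single_apply_of_ne _ _ _ _ _ (fun h => hkl ⟨h.1.symm, h.2.symm⟩),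
                Matrix.single_apply_of_ne _ _ _ _ _ (fun h => hkl2 ⟨h.1.symm, h.2.symm⟩)]
              ring
        rw [this]
        exact g.smul_mem _ hE
  have hsum : X = diagonal (fun i => X i i) +
      (1 / 2 : ℂ) • ∑ i, ∑ j ∈ Finset.univ.erase i, T i j := by
    ext k l
    rw [Matrix.add_apply, Matrix.smul_apply, Matrix.sum_apply]
    simp only [Matrix.sum_apply, T, Matrix.add_apply, Finset.sum_add_distrib]
    have h1 : ∑ i, ∑ j ∈ Finset.univ.erase i, (Matrix.single i j (X i j)) k l =
        if k = l then 0 else X k l := by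
      rw [Finset.sum_eq_single k]
      · by_cases hkl : k = l
        · rw [if_pos hkl]
          apply Finset.sum_eq_zero
          intro j hj
          rw [Matrix.single_apply_of_ne]
          rintro ⟨-, h⟩
          exact (Finset.ne_of_mem_erase hj) (h.trans hkl.symm)
        · rw [if_neg hkl, Finset.sum_eq_single l]
          · rw [Matrix.single_apply_same]
          · intro j _ hj
            rw [Matrix.single_apply_of_ne]
            rintro ⟨-, h⟩
            exact hj h
          · intro h
            exact absurd (Finset.mem_erase.2 ⟨fun h => hkl h.symm, Finset.mem_univ _⟩) h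
      · intro i _ hi
        apply Finset.sum_eq_zero
        intro j _
        rw [Matrix.single_apply_of_ne]
        rintro ⟨h, -⟩
        exact hi h
      · intro h
        exact absurd (Finset.mem_univ _) h
    have h2 : ∑ i, ∑ j ∈ Finset.univ.erase i, (Matrix.single (σ j) (σ i) (X (σ j) (σ i))) k l =
        if k = l then 0 else X k l := by
      rw [Finset.sum_eq_single (σ l)]
      · by_cases hkl : k = l
        · rw [if_pos hkl]
          apply Finset.sum_eq_zero
          intro j hj
          rw [Matrix.single_apply_of_ne]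
          rintro ⟨h, -⟩
          apply Finset.ne_of_mem_erase hj
          rw [← hσ j, h, hkl]
        · rw [if_neg hkl, Finset.sum_eq_single (σ k)]
          · rw [hσ, hσ, Matrix.single_apply_same]
          · intro j _ hj
            rw [Matrix.single_apply_of_ne]
            rintro ⟨h, -⟩
            apply hj
            rw [← h, hσ]
          · intro h
            refine absurd (Finset.mem_erase.2 ⟨fun h => hkl ?_, Finset.mem_univ _⟩) h
            rw [← hσ k, h, hσ]
      · intro i _ hi
        apply Finset.sum_eq_zero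
        intro j _
        rw [Matrix.single_apply_of_ne]
        rintro ⟨-, h⟩
        apply hi
        rw [← h, hσ]
      · intro h
        exact absurd (Finset.mem_univ _) h
    rw [h1, h2]
    by_cases hkl : k = l
    · rw [if_pos hkl, hkl, diagonal_apply_eq]
      simp
    · rw [if_neg hkl, diagonal_apply_ne _ hkl, smul_eq_mul]
      ring
  rw [hsum]
  refine g.add_mem (hdiag _ hXd) (g.smul_mem _ ?_)
  exact g.sum_mem fun i _ => g.sum_mem fun j hj => hT i j (fun h => (Finset.ne_of_mem_erase hj) h.symm)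

end Pool.Agent.Helper84.LM
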