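import Pool.Agent.Helper84.LM.Core
import Pool.Agent.Helper84.LM.Defs
import Pool.Agent.Helper19.AAT.Good

/-!
# LM-2: the Lie algebra of `G_ℓ` is the Lefschetz Lie algebra if the Frobenius torus is maximal
-/

open Polynomial Matrix

namespace Pool.Agent.Helper84.LM

open Pool.Agent.Helper84.AA (frob)
open Pool.Agent.Helper19.AAT (GoodT)

/-- For a diagonalizable `γ`: `X` lies in the Lie algebra of the Zariski closure of `γ ^ ℤ`, i.e.
`X` acts on the eigenspace of `γ` for `z` by a number `a z`, and `∑ n_z a_z = 0` for all integers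
`n_z` such that `∏ z ^ n_z` (over the eigenvalues) is a root of unity. -/
def TorusLie {V : Type} [AddCommGroup V] [Module ℂ V] [FiniteDimensional ℂ V]
    (γ X : Module.End ℂ V) : Prop :=
  ∃ a : ℂ → ℂ, (∀ z v, γ v = z • v → X v = a z • v) ∧
    ∀ (n : ℂ → ℤ) (N : ℕ), N ≠ 0 → (∏ z ∈ γ.charpoly.roots.toFinset, z ^ n z) ^ N = 1 →
      ∑ z ∈ γ.charpoly.roots.toFinset, (n z : ℂ) * a z = 0

/-- Whenever `γ` is a similitude with multiplier `q` and characteristic polynomial `P` of a
symplectic space `(V, ψ)`, and `g` is a Lie algebra of infinitesimal similitudes over which `V` is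
semisimple and which contains the Lie algebra of the Zariski closure of `γ ^ ℤ`, then `g` is the
full centralizer of `End_g(V)` in the Lie algebra of all infinitesimal similitudes. -/
def FullLift (q : ℕ) (P : ℂ[X]) : Prop :=
  ∀ (V : Type) [AddCommGroup V] [Module ℂ V] [FiniteDimensional ℂ V]
    (ψ : LinearMap.BilinForm ℂ V), ψ.Nondegenerate → (∀ x, ψ x x = 0) →
    ∀ γ : Module.End ℂ V, (∀ x y, ψ (γ x) (γ y) = q * ψ x y) → γ.charpoly = P →
    ∀ g : Submodule ℂ (Module.End ℂ V), (∀ X ∈ g, ∀ Y ∈ g, X * Y - Y * X ∈ g) →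
      (∀ X ∈ g, InfSim ψ X) →
      (∀ U : Submodule ℂ V, (∀ X ∈ g, ∀ u ∈ U, X u ∈ U) →
        ∃ U' : Submodule ℂ V, (∀ X ∈ g, ∀ u ∈ U', X u ∈ U') ∧ IsCompl U U') →
      (∀ X, TorusLie γ X → X ∈ g) →
      ∀ X : Module.End ℂ V,
        X ∈ g ↔ InfSim ψ X ∧ ∀ Y : Module.End ℂ V, (∀ Z ∈ g, Y * Z = Z * Y) → X * Y = Y * X

section roots

variable {q k : ℕ} (h : Fin k → ℤ[X])

private theorem minpoly_eq (hm : ∀ i, (h i).Monic) (hg : GoodT q h) (i : Fin k) {z : ℂ}
    (hz : z ∈ ((frob q (h i)).map (Int.castRingHom ℂ)).roots) :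
    minpoly ℚ z = (frob q (h i)).map (Int.castRingHom ℚ) := by
  have hfm : (frob q (h i)).Monic := (Pool.Agent.Helper19.Sign.weil_monic (q : ℤ) (h i) (hm i)).1
  have hirr : Irreducible ((frob q (h i)).map (Int.castRingHom ℚ)) :=
    (hfm.irreducible_iff_irreducible_map_fraction_map (K := ℚ)).1 (hg.1 i)
  refine (minpoly.eq_of_irreducible_of_monic hirr ?_ (hfm.map _)).symm
  have h1 := (mem_roots'.1 hz).2
  rw [IsRoot.def, eval_map] at h1
  have h2 : (algebraMap ℚ ℂ).comp (Int.castRingHom ℚ) = Int.castRingHom ℂ := RingHom.ext_int _ _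
  rw [aeval_def, eval₂_map, h2]
  exact h1

private theorem nodup_one (hm : ∀ i, (h i).Monic) (hg : GoodT q h) (i : Fin k) :
    ((frob q (h i)).map (Int.castRingHom ℂ)).roots.Nodup := by
  have hfm : (frob q (h i)).Monic := (Pool.Agent.Helper19.Sign.weil_monic (q : ℤ) (h i) (hm i)).1
  have hirr : Irreducible ((frob q (h i)).map (Int.castRingHom ℚ)) :=
    (hfm.irreducible_iff_irreducible_map_fraction_map (K := ℚ)).1 (hg.1 i)
  have h1 : (((frob q (h i)).map (Int.castRingHom ℚ)).map (algebraMap ℚ ℂ)).Separable :=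
    hirr.separable.map
  rw [Polynomial.map_map] at h1
  have h2 : (algebraMap ℚ ℂ).comp (Int.castRingHom ℚ) = Int.castRingHom ℂ := RingHom.ext_int _ _
  rw [h2] at h1
  exact nodup_roots h1

private theorem ne_sq (hm : ∀ i, (h i).Monic) (hd : ∀ i, 2 ≤ (h i).natDegree) (hg : GoodT q h)
    (i : Fin k) {z : ℂ} (hz : z ∈ ((frob q (h i)).map (Int.castRingHom ℂ)).roots) :
    z ^ 2 ≠ q := by
  intro hzq
  have h1 := minpoly_eq h hm hg i hz
  have hfm := Pool.Agent.Helper19.Sign.weil_monic (q : ℤ) (h i) (hm i)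
  have h2 : minpoly ℚ z ∣ X ^ 2 - C (q : ℚ) := by
    apply minpoly.dvd
    rw [map_sub, map_pow, aeval_X, aeval_C, hzq]
    simp
  have h3 := natDegree_le_of_dvd h2 (X_pow_sub_C_ne_zero (by norm_num) _)
  rw [h1, natDegree_X_pow_sub_C] at h3
  have h4 : ((frob q (h i)).map (Int.castRingHom ℚ)).natDegree = (frob q (h i)).natDegree :=
    Monic.natDegree_map hfm.1 _
  rw [h4] at h3
  have h5 : (frob q (h i)).natDegree = 2 * (h i).natDegree := hfm.2
  have h6 := hd i
  omega

private theorem disj (hq : 1 ≤ q) (hm : ∀ i, (h i).Monic) (hd : ∀ i, 2 ≤ (h i).natDegree)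
    (hg : GoodT q h) {i j : Fin k} (hij : i ≠ j) {z : ℂ}
    (hi : z ∈ ((frob q (h i)).map (Int.castRingHom ℂ)).roots) :
    z ∉ ((frob q (h j)).map (Int.castRingHom ℂ)).roots := by
  classical
  intro hj
  have hz0 : z ≠ 0 := by
    rintro rfl
    have h1 := (mem_roots'.1 hi).2
    rw [IsRoot.def, eval_map, eval₂_at_zero] at h1
    have h2 : (frob q (h i)).coeff 0 = (q : ℤ) ^ (h i).natDegree := by
      unfold frob
      rw [finsetSum_coeff, Finset.sum_eq_single (h i).natDegree]
      · rw [Nat.sub_self, pow_zero, mul_one, mul_coeff_zero, coeff_C_zero]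
        have h3 : ((X ^ 2 + C (q : ℤ)) ^ (h i).natDegree).coeff 0 = (q : ℤ) ^ (h i).natDegree := by
          rw [coeff_zero_eq_eval_zero, eval_pow]
          simp
        rw [h3, (hm i).coeff_natDegree, one_mul]
      · intro l hl hne
        have hl2 : l < (h i).natDegree := by
          have := Finset.mem_range.1 hl
          omega
        rw [mul_coeff_zero, mul_coeff_zero, coeff_X_pow, if_neg (by omega), mul_zero, zero_mul]
      · intro h4
        exact absurd (Finset.mem_range.2 (Nat.lt_succ_self _)) h4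
    rw [h2] at h1
    have h5 : (Int.castRingHom ℂ) ((q : ℤ) ^ (h i).natDegree) = (q : ℂ) ^ (h i).natDegree := by
      simp
    rw [h5] at h1
    exact pow_ne_zero _ (by exact_mod_cast (by omega : q ≠ 0)) h1
  let n : Fin k → ℂ → ℤ := fun l w => if w = z then (if l = i then 1 else if l = j then -1 else 0)
    else 0
  have hprod : (∏ l, ∏ w ∈ ((frob q (h l)).map (Int.castRingHom ℂ)).roots.toFinset, w ^ n l w) =
      1 := by
    have h1 : ∀ l, ∏ w ∈ ((frob q (h l)).map (Int.castRingHom ℂ)).roots.toFinset, w ^ n l w =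
        if l = i then z else if l = j then z⁻¹ else 1 := by
      intro l
      by_cases hl : l = i
      · subst hl
        rw [if_pos rfl, Finset.prod_eq_single z]
        · simp [n]
        · intro w _ hw
          simp [n, hw]
        · intro h2
          exact absurd (Multiset.mem_toFinset.2 hi) h2
      · by_cases hl2 : l = j
        · subst hl2
          rw [if_neg hl, if_pos rfl, Finset.prod_eq_single z]
          · simp [n, hl]
          · intro w _ hw
            simp [n, hw]
          · intro h2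
            exact absurd (Multiset.mem_toFinset.2 hj) h2
        · rw [if_neg hl, if_neg hl2]
          apply Finset.prod_eq_one
          intro w _
          simp [n, hl, hl2]
    simp only [h1]
    rw [← Finset.mul_prod_erase _ _ (Finset.mem_univ i), if_pos rfl,
      ← Finset.mul_prod_erase _ _ (Finset.mem_erase.2 ⟨hij.symm, Finset.mem_univ j⟩),
      if_neg hij.symm, if_pos rfl, Finset.prod_eq_one, mul_one, mul_inv_cancel₀ hz0]
    intro l hl
    have h2 := Finset.ne_of_mem_erase hl
    have h3 := Finset.ne_of_mem_erase (Finset.mem_of_mem_erase hl)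
    rw [if_neg h3, if_neg h2]
  have h4 := hg.2 n 1 1 one_ne_zero (by rw [hprod]; simp) i z (Multiset.mem_toFinset.2 hi)
  have h5 : (q : ℂ) / z = z := by
    by_contra hne
    simp [n, hne] at h4
  apply ne_sq h hm hd hg i hi
  rw [div_eq_iff hz0] at h5
  rw [h5, sq]

/-- The roots of the product. -/
theorem nodup_all (hq : 1 ≤ q) (hm : ∀ i, (h i).Monic) (hd : ∀ i, 2 ≤ (h i).natDegree)
    (hg : GoodT q h) : (∏ i, (frob q (h i)).map (Int.castRingHom ℂ)).roots.Nodup := by
  have hne : (∏ i, (frob q (h i)).map (Int.castRingHom ℂ)) ≠ 0 := by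
    apply Finset.prod_ne_zero_iff.2
    intro i _
    exact ((Pool.Agent.Helper19.Sign.weil_monic (q : ℤ) (h i) (hm i)).1.map _).ne_zero
  rw [roots_prod _ _ hne, Multiset.nodup_bind]
  refine ⟨fun i _ => nodup_one h hm hg i, ?_⟩
  have : (Finset.univ : Finset (Fin k)).val.Nodup := Finset.univ.nodup
  refine Multiset.Nodup.pairwise ?_ this
  intro i _ j _ hij
  rw [Function.onFun, Multiset.disjoint_left]
  intro z hz
  exact disj h hq hm hd hg hij hz

private theorem toFinset_all (hm : ∀ i, (h i).Monic) :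
    (∏ i, (frob q (h i)).map (Int.castRingHom ℂ)).roots.toFinset =
      Finset.univ.biUnion fun i => ((frob q (h i)).map (Int.castRingHom ℂ)).roots.toFinset := by
  classical
  have hne : (∏ i, (frob q (h i)).map (Int.castRingHom ℂ)) ≠ 0 := by
    apply Finset.prod_ne_zero_iff.2
    intro i _
    exact ((Pool.Agent.Helper19.Sign.weil_monic (q : ℤ) (h i) (hm i)).1.map _).ne_zero
  ext z
  rw [Multiset.mem_toFinset, roots_prod _ _ hne]
  simp

/-- The relations: `n_z = n_(q/z)`. -/
private theorem rel_all (hq : 1 ≤ q) (hm : ∀ i, (h i).Monic) (hd : ∀ i, 2 ≤ (h i).natDegree)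
    (hg : GoodT q h) (n : ℂ → ℤ) (N : ℕ) (hN : N ≠ 0)
    (hrel : (∏ z ∈ (∏ i, (frob q (h i)).map (Int.castRingHom ℂ)).roots.toFinset, z ^ n z) ^ N =
      1) : ∀ z ∈ (∏ i, (frob q (h i)).map (Int.castRingHom ℂ)).roots.toFinset,
        n z = n (q / z) := by
  classical
  rw [toFinset_all h hm] at hrel ⊢
  rw [Finset.prod_biUnion] at hrel
  · intro z hz
    obtain ⟨i, -, hi⟩ := Finset.mem_biUnion.1 hz
    exact hg.2 (fun _ => n) N 1 hN (by rw [hrel]; simp) i z hi
  · intro i _ j _ hij
    rw [Function.onFun, Finset.disjoint_left]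
    intro z hz hz2
    exact disj h hq hm hd hg hij (Multiset.mem_toFinset.1 hz) (Multiset.mem_toFinset.1 hz2)

end roots

/-- The relation between the matrix entries of an infinitesimal similitude. -/
private theorem entries {V : Type} [AddCommGroup V] [Module ℂ V] {ι : Type} [Fintype ι]
    [DecidableEq ι] (b : Module.Basis ι ℂ V) (ψ : LinearMap.BilinForm ℂ V) (σ : ι → ι)
    (hσ : ∀ i, σ (σ i) = i) (h0 : ∀ i j, j ≠ σ i → ψ (b i) (b j) = 0) (X : Module.End ℂ V) (c : ℂ)
    (hX : ∀ x y, ψ (X x) y + ψ x (X y) = c * ψ x y) (i j : ι) :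
    LinearMap.toMatrix b b X i j * ψ (b i) (b (σ i)) +
      LinearMap.toMatrix b b X (σ j) (σ i) * ψ (b j) (b (σ j)) =
      c * (if i = j then ψ (b j) (b (σ j)) else 0) := by
  have hb : ∀ j, X (b j) = ∑ l, LinearMap.toMatrix b b X l j • b l := by
    intro j
    conv_lhs => rw [← b.sum_repr (X (b j))]
    refine Finset.sum_congr rfl fun l _ => ?_
    rw [LinearMap.toMatrix_apply]
  have h1 : ψ (X (b j)) (b (σ i)) = LinearMap.toMatrix b b X i j * ψ (b i) (b (σ i)) := by
    rw [hb j, LinearMap.BilinForm.sum_left, Finset.sum_eq_single i]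
    · rw [LinearMap.BilinForm.smul_left]
    · intro l _ hl
      rw [LinearMap.BilinForm.smul_left, h0 l (σ i), mul_zero]
      intro h2
      apply hl
      rw [← hσ l, ← h2, hσ]
    · intro h2
      exact absurd (Finset.mem_univ _) h2
  have h2 : ψ (b j) (X (b (σ i))) =
      LinearMap.toMatrix b b X (σ j) (σ i) * ψ (b j) (b (σ j)) := by
    rw [hb (σ i), LinearMap.BilinForm.sum_right, Finset.sum_eq_single (σ j)]
    · rw [LinearMap.BilinForm.smul_right]
    · intro l _ hl
      rw [LinearMap.BilinForm.smul_right, h0 j l hl, mul_zero]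
    · intro h2
      exact absurd (Finset.mem_univ _) h2
  rw [← h1, ← h2, hX]
  by_cases hij : i = j
  · rw [if_pos hij, hij]
  · rw [if_neg hij, h0 j (σ i), mul_zero]
    intro h3
    apply hij
    rw [← hσ i, h3, hσ]

private theorem prod_zpow_sum {ι : Type} (s : Finset ι) (f : ι → ℤ) {q : ℂ} (hq : q ≠ 0) :
    ∏ z ∈ s, q ^ f z = q ^ ∑ z ∈ s, f z := by
  classical
  induction s using Finset.induction_on with
  | empty => simp
  | insert a s ha ih => rw [Finset.prod_insert ha, Finset.sum_insert ha, zpow_add₀ hq, ih]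

/-- An eigenbasis. -/
theorem exists_eigenbasis {V : Type} [AddCommGroup V] [Module ℂ V] [FiniteDimensional ℂ V]
    (γ : Module.End ℂ V) (hnodup : γ.charpoly.roots.Nodup) :
    ∃ b : Module.Basis γ.charpoly.roots.toFinset ℂ V, ∀ z, γ (b z) = (z : ℂ) • b z := by
  classical
  have hmemS : ∀ z, z ∈ γ.charpoly.roots.toFinset ↔ γ.charpoly.IsRoot z := by
    intro z
    rw [Multiset.mem_toFinset, mem_roots (LinearMap.charpoly_monic γ).ne_zero]
  have hev : ∀ z : γ.charpoly.roots.toFinset, ∃ v, γ.HasEigenvector (z : ℂ) v := by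
    intro z
    exact ((Module.End.hasEigenvalue_iff_isRoot_charpoly γ (z : ℂ)).2
      ((hmemS _).1 z.2)).exists_hasEigenvector
  choose v hv using hev
  have hvγ : ∀ z, γ (v z) = (z : ℂ) • v z := fun z => (hv z).apply_eq_smul
  have hli : LinearIndependent ℂ v :=
    Module.End.eigenvectors_linearIndependent' γ
      (fun z : γ.charpoly.roots.toFinset => (z : ℂ)) Subtype.val_injective v hv
  have hcard : Fintype.card γ.charpoly.roots.toFinset = Module.finrank ℂ V := by
    rw [Fintype.card_coe, Multiset.toFinset_card_of_nodup hnodup,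
      ← LinearMap.charpoly_natDegree γ]
    exact (splits_iff_card_roots.1 (IsAlgClosed.splits γ.charpoly))
  have hspan : ⊤ ≤ Submodule.span ℂ (Set.range v) := by
    rw [hli.span_eq_top_of_card_eq_finrank' hcard]
  refine ⟨Module.Basis.mk hli hspan, fun z => ?_⟩
  rw [Module.Basis.mk_apply hli hspan z]
  exact hvγ z

theorem fullLift_of {q k : ℕ} (hq : 2 ≤ q) (h : Fin k → ℤ[X]) (hm : ∀ i, (h i).Monic)
    (hd : ∀ i, 2 ≤ (h i).natDegree) (hg : GoodT q h) :
    FullLift q (∏ i, (frob q (h i)).map (Int.castRingHom ℂ)) := by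
  classical
  intro V _ _ _ ψ hnd halt γ hγ hP g hbr hsim hss htor X
  constructor
  · intro hX
    exact ⟨hsim X hX, fun Y hY => (hY X hX).symm⟩
  rintro ⟨hXs, hXc⟩
  have hnodup : γ.charpoly.roots.Nodup := by
    rw [hP]
    exact nodup_all h (by omega) hm hd hg
  let S : Finset ℂ := γ.charpoly.roots.toFinset
  have hSdef : S = γ.charpoly.roots.toFinset := rfl
  have hmemS : ∀ z, z ∈ S ↔ γ.charpoly.IsRoot z := by
    intro z
    rw [hSdef, Multiset.mem_toFinset, mem_roots (LinearMap.charpoly_monic γ).ne_zero]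
  -- the eigenvectors
  have hev : ∀ z : S, ∃ v, γ.HasEigenvector (z : ℂ) v := by
    intro z
    exact ((Module.End.hasEigenvalue_iff_isRoot_charpoly γ (z : ℂ)).2
      ((hmemS _).1 z.2)).exists_hasEigenvector
  choose v hv using hev
  have hvγ : ∀ z : S, γ (v z) = (z : ℂ) • v z := fun z => (hv z).apply_eq_smul
  have hv0 : ∀ z : S, v z ≠ 0 := fun z => (hv z).2
  have hli : LinearIndependent ℂ v :=
    Module.End.eigenvectors_linearIndependent' γ (fun z : S => (z : ℂ)) Subtype.val_injective v hv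
  have hcard : Fintype.card S = Module.finrank ℂ V := by
    rw [Fintype.card_coe, hSdef, Multiset.toFinset_card_of_nodup hnodup,
      ← LinearMap.charpoly_natDegree γ]
    exact (splits_iff_card_roots.1 (IsAlgClosed.splits γ.charpoly))
  have hspan : ⊤ ≤ Submodule.span ℂ (Set.range v) := by
    rw [hli.span_eq_top_of_card_eq_finrank' hcard]
  let b : Module.Basis S ℂ V := Module.Basis.mk hli hspan
  have hb : ∀ z, b z = v z := fun z => Module.Basis.mk_apply hli hspan z
  -- the pairing
  have hq0 : (q : ℂ) ≠ 0 := by exact_mod_cast (by omega : q ≠ 0)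
  have hpair : ∀ z w : S, ψ (b z) (b w) ≠ 0 → (z : ℂ) * w = q := by
    intro z w hne
    have h1 := hγ (b z) (b w)
    rw [hb, hb, hvγ, hvγ, LinearMap.BilinForm.smul_left, LinearMap.BilinForm.smul_right] at h1
    rw [hb, hb] at hne
    have h2 : ((z : ℂ) * w - q) * ψ (v z) (v w) = 0 := by linear_combination h1
    exact sub_eq_zero.1 ((mul_eq_zero.1 h2).resolve_right hne)
  have hex : ∀ z : S, ∃ w : S, ψ (b z) (b w) ≠ 0 := by
    intro z
    by_contra hcon
    push Not at hcon
    apply hv0 z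
    rw [← hb]
    apply hnd.1
    intro y
    rw [← b.sum_repr y, LinearMap.BilinForm.sum_right]
    apply Finset.sum_eq_zero
    intro w _
    rw [LinearMap.BilinForm.smul_right, hcon w, mul_zero]
  have hz0 : ∀ z : S, (z : ℂ) ≠ 0 := by
    intro z h1
    obtain ⟨w, hw⟩ := hex z
    have := hpair z w hw
    rw [h1, zero_mul] at this
    exact hq0 this.symm
  choose σ hσw using hex
  have hσq : ∀ z : S, (z : ℂ) * (σ z : ℂ) = q := fun z => hpair z (σ z) (hσw z)
  have huniq : ∀ z w : S, (z : ℂ) * w = q → w = σ z := by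
    intro z w h1
    apply Subtype.ext
    exact mul_left_cancel₀ (hz0 z) (h1.trans (hσq z).symm)
  have hσ : ∀ z, σ (σ z) = z := by
    intro z
    refine (huniq (σ z) z ?_).symm
    rw [mul_comm]
    exact hσq z
  have h0 : ∀ z w, w ≠ σ z → ψ (b z) (b w) = 0 := by
    intro z w hne
    by_contra h1
    exact hne (huniq z w (hpair z w h1))
  have hσ' : ∀ z, σ z ≠ z := by
    intro z h1
    have := hσw z
    rw [h1] at this
    exact this (halt _)
  have hskew : ∀ x y, ψ x y = - ψ y x := by
    intro x y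
    have h1 := halt (x + y)
    rw [LinearMap.BilinForm.add_left, LinearMap.BilinForm.add_right,
      LinearMap.BilinForm.add_right, halt, halt] at h1
    linear_combination h1
  have hp' : ∀ z, ψ (b (σ z)) (b (σ (σ z))) = - ψ (b z) (b (σ z)) := by
    intro z
    rw [hσ, hskew]
  have hqz : ∀ z : S, (q : ℂ) / z = σ z := by
    intro z
    rw [div_eq_iff (hz0 z), mul_comm]
    exact (hσq z).symm
  -- matrices
  let M := LinearMap.toMatrix b b
  have hMmul : ∀ A B : Module.End ℂ V, M (A * B) = M A * M B := fun A B =>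
    LinearMap.toMatrix_mul b A B
  let g' : Submodule ℂ (Matrix S S ℂ) := g.map (M : Module.End ℂ V →ₗ[ℂ] Matrix S S ℂ)
  have hmem : ∀ A : Module.End ℂ V, M A ∈ g' ↔ A ∈ g := by
    intro A
    constructor
    · rintro ⟨B, hB, hBA⟩
      rw [← M.injective hBA]
      exact hB
    · intro hA
      exact ⟨A, hA, rfl⟩
  have hex' : ∀ A' ∈ g', ∃ A ∈ g, M A = A' := fun A' hA' => hA'
  rw [← hmem]
  refine core σ (fun z => ψ (b z) (b (σ z))) g' hσ hσ' hσw hp' ?_ ?_ ?_ ?_ (M X) ?_ ?_ ?_
  · intro A' hA' B' hB'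
    obtain ⟨A, hA, rfl⟩ := hex' A' hA'
    obtain ⟨B, hB, rfl⟩ := hex' B' hB'
    rw [← hMmul, ← hMmul, ← map_sub]
    exact (hmem _).2 (hbr A hA B hB)
  · intro A' hA' i j hij
    obtain ⟨A, hA, rfl⟩ := hex' A' hA'
    obtain ⟨c, hc⟩ := hsim A hA
    have h1 := entries b ψ σ hσ h0 A c hc i j
    rw [if_neg hij, mul_zero] at h1
    exact h1
  · rintro a ⟨c, hc⟩
    have h1 : M (M.symm (diagonal a)) = diagonal a := M.apply_symm_apply _
    rw [← h1, hmem]
    apply htor
    have hXb : ∀ z : S, (M.symm (diagonal a)) (b z) = a z • b z := by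
      intro z
      have h2 : (M.symm (diagonal a)) (b z) = ∑ w, diagonal a w z • b w := by
        show (Matrix.toLin b b (diagonal a)) (b z) = _
        rw [Matrix.toLin_self]
      rw [h2, Finset.sum_eq_single z]
      · rw [diagonal_apply_eq]
      · intro w _ hw
        rw [diagonal_apply_ne _ hw, zero_smul]
      · intro h3
        exact absurd (Finset.mem_univ _) h3
    refine ⟨fun z => if hz : z ∈ S then a ⟨z, hz⟩ else 0, ?_, ?_⟩
    · intro z x hx
      have h2 : ∀ w : S, ((w : ℂ) - z) * b.repr x w = 0 := by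
        intro w
        have h3 : γ x = ∑ w, (b.repr x w * w) • b w := by
          conv_lhs => rw [← b.sum_repr x]
          rw [map_sum]
          refine Finset.sum_congr rfl fun w _ => ?_
          rw [map_smul, hb, hvγ, smul_smul]
        have h4 : z • x = ∑ w, (z * b.repr x w) • b w := by
          conv_lhs => rw [← b.sum_repr x]
          rw [Finset.smul_sum]
          refine Finset.sum_congr rfl fun w _ => ?_
          rw [smul_smul]
        have h5 : b.repr (γ x) w = b.repr x w * w := by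
          rw [h3, b.repr_sum_self]
        have h6 : b.repr (z • x) w = z * b.repr x w := by
          rw [h4, b.repr_sum_self]
        rw [hx, h6] at h5
        linear_combination -h5
      conv_lhs => rw [← b.sum_repr x]
      rw [map_sum]
      conv_rhs => rw [← b.sum_repr x]
      rw [Finset.smul_sum]
      refine Finset.sum_congr rfl fun w _ => ?_
      rw [map_smul, hXb, smul_smul, smul_smul]
      rcases mul_eq_zero.1 (h2 w) with h3 | h3
      · have h4 : z = w := (sub_eq_zero.1 h3).symm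
        subst h4
        have h5 : (if hz : (w : ℂ) ∈ S then a ⟨w, hz⟩ else 0) = a w := dif_pos w.2
        show _ = ((if hz : (w : ℂ) ∈ S then a ⟨w, hz⟩ else 0) * b.repr x w) • b w
        rw [h5, mul_comm]
      · rw [h3, zero_mul, mul_zero]
    · intro n N hN hrel
      have hn := rel_all h (by omega) hm hd hg n N hN (by rw [← hP]; exact hrel)
      rw [← hP] at hn
      have hn' : ∀ z : S, n (z : ℂ) = n (σ z : ℂ) := by
        intro z
        rw [← hqz]
        exact hn z z.2
      have hsum0 : ∑ z : S, n (z : ℂ) = 0 := by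
        have h2 : ∏ z : S, (z : ℂ) ^ n (z : ℂ) = ∏ z ∈ S, z ^ n z :=
          Finset.prod_coe_sort S (fun z => z ^ n z)
        have h3 : ∏ z : S, (σ z : ℂ) ^ n (σ z : ℂ) = ∏ z : S, (z : ℂ) ^ n (z : ℂ) :=
          Equiv.prod_comp (Function.Involutive.toPerm σ hσ) (fun z : S => (z : ℂ) ^ n (z : ℂ))
        have h4 : (∏ z : S, (z : ℂ) ^ n (z : ℂ)) ^ 2 = (q : ℂ) ^ (∑ z : S, n (z : ℂ)) := by
          rw [sq]
          nth_rewrite 2 [← h3]
          rw [← Finset.prod_mul_distrib]
          have h5 : ∀ z : S, (z : ℂ) ^ n (z : ℂ) * (σ z : ℂ) ^ n (σ z : ℂ) = (q : ℂ) ^ n (z : ℂ) := by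
            intro z
            rw [← hn' z, ← mul_zpow, hσq]
          simp only [h5]
          exact prod_zpow_sum _ _ hq0
        have h6 : ((q : ℂ) ^ (∑ z : S, n (z : ℂ))) ^ N = 1 := by
          rw [← h4, ← pow_mul, mul_comm 2 N, pow_mul, h2, hrel, one_pow]
        have h7 : ((q : ℝ) ^ (∑ z : S, n (z : ℂ))) ^ N = 1 := by
          have h9 := congrArg (fun w : ℂ => ‖w‖) h6
          simpa only [norm_pow, norm_zpow, norm_one, Complex.norm_natCast] using h9
        have hqR : (1 : ℝ) < q := by exact_mod_cast (by omega : 1 < q)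
        have h8 : ((q : ℝ) ^ (∑ z : S, n (z : ℂ))) = 1 :=
          (pow_eq_one_iff_of_nonneg (by positivity) hN).1 h7
        exact (zpow_eq_one_iff_right₀ (by positivity) hqR.ne').1 h8
      have h2 : ∑ z ∈ S, (n z : ℂ) * (if hz : z ∈ S then a ⟨z, hz⟩ else 0) =
          ∑ z : S, (n (z : ℂ) : ℂ) * a z := by
        rw [← Finset.sum_coe_sort S (fun z => (n z : ℂ) * (if hz : z ∈ S then a ⟨z, hz⟩ else 0))]
        refine Finset.sum_congr rfl fun z _ => ?_
        rw [dif_pos z.2]
      have h3 : ∑ z : S, (n (σ z : ℂ) : ℂ) * a (σ z) = ∑ z : S, (n (z : ℂ) : ℂ) * a z :=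
        Equiv.sum_comp (Function.Involutive.toPerm σ hσ) (fun z : S => (n (z : ℂ) : ℂ) * a z)
      have h4 : ∑ z : S, (n (z : ℂ) : ℂ) * a z + ∑ z : S, (n (σ z : ℂ) : ℂ) * a (σ z) = 0 := by
        rw [← Finset.sum_add_distrib]
        have h5 : ∀ z : S, (n (z : ℂ) : ℂ) * a z + (n (σ z : ℂ) : ℂ) * a (σ z) =
            (n (z : ℂ) : ℂ) * c := by
          intro z
          rw [← hn' z, ← mul_add, hc]
        simp only [h5]
        rw [← Finset.sum_mul]
        have h6 : (∑ z : S, (n (z : ℂ) : ℂ)) = ((∑ z : S, n (z : ℂ) : ℤ) : ℂ) := by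
          push_cast
          rfl
        rw [h6, hsum0]
        simp
      rw [h3] at h4
      show ∑ z ∈ S, (n z : ℂ) * (if hz : z ∈ S then a ⟨z, hz⟩ else 0) = 0
      rw [h2]
      linear_combination h4 / 2
  · intro U hU
    let e : V ≃ₗ[ℂ] (S → ℂ) := b.equivFun
    have he : ∀ (A : Module.End ℂ V) (x : V), e (A x) = M A *ᵥ e x := by
      intro A x
      have h1 := LinearMap.toMatrix_mulVec_repr b b A x
      exact h1.symm
    obtain ⟨U1, hU1, hc⟩ := hss (U.comap (e : V →ₗ[ℂ] (S → ℂ))) (by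
      intro A hA u hu
      rw [Submodule.mem_comap] at hu ⊢
      have h1 : M A *ᵥ e u ∈ U := hU (M A) ((hmem A).2 hA) _ hu
      rw [← he A u] at h1
      exact h1)
    refine ⟨U1.map (e : V →ₗ[ℂ] (S → ℂ)), ?_, ?_⟩
    · intro A' hA' u hu
      obtain ⟨A, hA, rfl⟩ := hex' A' hA'
      obtain ⟨x, hx, rfl⟩ := hu
      have h2 := he A x
      refine ⟨A x, hU1 A hA x hx, ?_⟩
      exact h2
    · have h1 := (Submodule.orderIsoMapComap e).isCompl hc
      have h2 : (Submodule.orderIsoMapComap e) (U.comap (e : V →ₗ[ℂ] (S → ℂ))) = U :=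
        Submodule.map_comap_eq_of_surjective e.surjective U
      rw [h2] at h1
      exact h1
  · intro i j hij
    obtain ⟨c, hc⟩ := hXs
    have h1 := entries b ψ σ hσ h0 X c hc i j
    rw [if_neg hij, mul_zero] at h1
    exact h1
  · obtain ⟨c, hc⟩ := hXs
    refine ⟨c, fun i => ?_⟩
    have h1 := entries b ψ σ hσ h0 X c hc i i
    rw [if_pos rfl] at h1
    have h2 := hσw i
    have h3 : (M X i i + M X (σ i) (σ i) - c) * ψ (b i) (b (σ i)) = 0 := by linear_combination h1
    exact sub_eq_zero.1 ((mul_eq_zero.1 h3).resolve_right h2)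
  · intro Y' hY'
    have h1 : M (M.symm Y') = Y' := M.apply_symm_apply _
    rw [← h1, ← hMmul, ← hMmul, hXc]
    intro Z hZ
    apply M.injective
    rw [hMmul, hMmul, h1]
    exact hY' _ ((hmem Z).2 hZ)

end Pool.Agent.Helper84.LM
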