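import Pool.Agent.Helper84.LM.Lef
import Pool.Agent.Helper68.LM.Zariski

/-!
# LM-3: groups of similitudes containing a power of a given Frobenius element
-/

open Polynomial

namespace Pool.Agent.Helper84.LM

open Pool.Agent.Helper84.AA (frob)
open Pool.Agent.Helper19.AAT (GoodT)
open Pool.Agent.Helper68.LM (lieZar lieZar_bracket lieZar_infSim torus_mem)

theorem inLie_iff {V : Type} [AddCommGroup V] [Module ℂ V] {G : Subgroup (Module.End ℂ V)ˣ}
    {X : Module.End ℂ V} : InLie G X ↔ X ∈ lieZar G := Iff.rfl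

theorem lefschetz_of {q k : ℕ} (hq : 2 ≤ q) (h : Fin k → ℤ[X]) (hm : ∀ i, (h i).Monic)
    (hd : ∀ i, 2 ≤ (h i).natDegree) (hg : GoodT q h) :
    LefschetzGroup q (∏ i, (frob q (h i)).map (Int.castRingHom ℂ)) := by
  classical
  intro V _ _ _ ψ hnd halt γ hmult hP G hG hγ hss X
  obtain ⟨N, hN, hγ⟩ := hγ
  have hnodup : (LinearMap.charpoly (γ : Module.End ℂ V)).roots.Nodup := by
    rw [hP]
    exact nodup_all h (by omega) hm hd hg
  obtain ⟨b, hb⟩ := exists_eigenbasis (γ : Module.End ℂ V) hnodup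
  refine fullLift_of hq h hm hd hg V ψ hnd halt (γ : Module.End ℂ V) hmult hP (lieZar G)
    (fun X hX Y hY => lieZar_bracket hX hY) (fun X hX => lieZar_infSim ψ hG hX) hss ?_ X
  rintro Z ⟨a, ha, hrel⟩
  have hpow : ∀ z, ((γ ^ N : (Module.End ℂ V)ˣ) : Module.End ℂ V) (b z) =
      ((z : ℂ) ^ N) • b z := by
    intro z
    rw [Units.val_pow_eq_pow_val]
    have h1 : ∀ n : ℕ, ((γ : Module.End ℂ V) ^ n) (b z) = ((z : ℂ) ^ n) • b z := by
      intro n
      induction n with
      | zero => rw [pow_zero, pow_zero, Module.End.one_apply, one_smul]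
      | succ n ih =>
        rw [pow_succ, Module.End.mul_apply, hb, map_smul, ih, smul_smul, pow_succ, mul_comm]
    exact h1 N
  refine torus_mem hγ b (fun z => (z : ℂ) ^ N) hpow (fun z => a z) ?_
    (fun z => ha (z : ℂ) (b z) (hb z))
  intro n hn
  have h2 := hrel (fun z => if hz : z ∈ (LinearMap.charpoly (γ : Module.End ℂ V)).roots.toFinset
    then n ⟨z, hz⟩ else 0) N hN (by
      rw [← hn, ← Finset.prod_coe_sort, ← Finset.prod_pow]
      refine Finset.prod_congr rfl fun z _ => ?_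
      rw [dif_pos z.2, ← zpow_natCast, ← zpow_natCast, ← zpow_mul, ← zpow_mul, mul_comm])
  have h3 := Finset.sum_coe_sort (LinearMap.charpoly (γ : Module.End ℂ V)).roots.toFinset
    (fun z : ℂ => (((if hz : z ∈ (LinearMap.charpoly (γ : Module.End ℂ V)).roots.toFinset
    then n ⟨z, hz⟩ else 0 : ℤ)) : ℂ) * a z)
  rw [← h2, ← h3]
  refine Finset.sum_congr rfl fun z _ => ?_
  rw [dif_pos z.2]

end Pool.Agent.Helper84.LM
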